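import Mathlib
import Pool.Agent.Q157.EC.Main

set_option autoImplicit false

namespace Pool.Agent.Results.MP_2a9600_co.ThreeRoots

open Polynomial

/-- `S` is an edge covering set of `G`: a set of edges of `G` such that every vertex of `G` is an
endpoint of at least one edge in `S`. -/
def IsEdgeCover {V : Type*} (G : SimpleGraph V) (S : Finset (Sym2 V)) : Prop :=
  (∀ e ∈ S, e ∈ G.edgeSet) ∧ ∀ v : V, ∃ e ∈ S, v ∈ e

/-- `e(G,i)`: the number of edge covering sets of `G` with exactly `i` edges. -/
noncomputable def numEdgeCovers {V : Type*} (G : SimpleGraph V) (i : ℕ) : ℕ :=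
  {S : Finset (Sym2 V) | IsEdgeCover G S ∧ S.card = i}.ncard

/-- The edge cover polynomial `E(G,x) = ∑_{i=0}^{|E|} e(G,i) x^i`, with complex coefficients. -/
noncomputable def edgeCoverPoly {V : Type*} (G : SimpleGraph V) : ℂ[X] :=
  ∑ i ∈ Finset.range (G.edgeSet.ncard + 1), C (numEdgeCovers G i : ℂ) * X ^ i

/-- For every finite connected simple graph `G` with minimum degree `2` other than the triangle,
the edge cover polynomial has at least three distinct complex roots. -/
theorem result {V : Type*} [Fintype V] (G : SimpleGraph V) [DecidableRel G.Adj]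
    (hconn : G.Connected) (hδ : G.minDegree = 2)
    (hK : IsEmpty (G ≃g (⊤ : SimpleGraph (Fin 3)))) :
    3 ≤ {z : ℂ | (edgeCoverPoly G).eval z = 0}.ncard := by
  classical
  have hne : Nonempty V := hconn.nonempty
  have hdeg : ∀ v, 2 ≤ G.degree v := fun v => hδ ▸ G.minDegree_le_degree v
  have hex : ∃ v, G.degree v = 2 := by
    obtain ⟨v, hv⟩ := G.exists_minimal_degree_vertex
    exact ⟨v, by rw [← hv, hδ]⟩
  have hnum : ∀ i, numEdgeCovers G i = Pool.Agent.Q157.EC.cnt G i := by
    intro i
    unfold numEdgeCovers Pool.Agent.Q157.EC.cnt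
    rw [← Set.ncard_coe_finset]
    congr 1
    ext S
    simp only [Set.mem_setOf_eq, Finset.coe_filter, Pool.Agent.Q157.EC.mem_covers, IsEdgeCover,
      Pool.Agent.Q157.EC.Cov, Finset.subset_iff, SimpleGraph.mem_edgeFinset, Finset.mem_univ,
      true_implies]
  have hcoe : ∀ i, (edgeCoverPoly G).coeff i = (Pool.Agent.Q157.EC.cnt G i : ℂ) := by
    intro i
    have hE : G.edgeSet.ncard = G.edgeFinset.card := by
      rw [← SimpleGraph.coe_edgeFinset, Set.ncard_coe_finset]
    unfold edgeCoverPoly
    rw [hE, Polynomial.finsetSum_coeff]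
    simp only [coeff_C_mul, coeff_X_pow, mul_ite, mul_one, mul_zero]
    rw [Finset.sum_ite_eq]
    split_ifs with hi
    · rw [hnum]
    · rw [Pool.Agent.Q157.EC.cnt_gt G]
      · simp
      · rw [Finset.mem_range] at hi; omega
  have hne0 : edgeCoverPoly G ≠ 0 := by
    intro h0
    have h1 := hcoe G.edgeFinset.card
    rw [Pool.Agent.Q157.EC.cnt_top G hdeg, h0] at h1
    simp at h1
  have hset : {z : ℂ | (edgeCoverPoly G).eval z = 0} = ((edgeCoverPoly G).roots.toFinset : Set ℂ) := by
    ext z
    simp only [Set.mem_setOf_eq, Finset.mem_coe, Multiset.mem_toFinset, mem_roots hne0, IsRoot.def]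
  rw [hset, Set.ncard_coe_finset]
  by_contra hlt
  obtain ⟨f⟩ := Pool.Agent.Q157.EC.main G hconn hdeg hex (edgeCoverPoly G) hcoe (by omega)
  exact hK.false f

end Pool.Agent.Results.MP_2a9600_co.ThreeRoots
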